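import Mathlib

/-!
# The depth of a Coxeter group element need not be realized by a reduced factorization

The counterexample is `w = s₂ s₀ s₁ s₂ s₀ s₁ s₂` in the affine Coxeter group of type `Ã₂`.
-/

namespace Pool.Agent.Results.MP_c1e3ac_co.AffineDepth

variable {B W : Type*} [Group W] {M : CoxeterMatrix B}

/-- The sum of the depths `(1 + ℓ(t)) / 2` of the entries `t` of a list of reflections (the length
of a reflection is odd, so the division is exact). -/
noncomputable def depthSum (cs : CoxeterSystem M W) (l : List W) : ℕ :=
  (l.map fun t => (1 + cs.length t) / 2).sum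

/-- The depth of `w`: the least sum of the depths of the factors in a factorization of `w` into
reflections. -/
noncomputable def depth (cs : CoxeterSystem M W) (w : W) : ℕ :=
  sInf {d | ∃ l : List W, (∀ t ∈ l, cs.IsReflection t) ∧ l.prod = w ∧ depthSum cs l = d}

/-- The generators of the affine Weyl group of type `Ã₂`, acting on `ℤ³`. -/
def act : Fin 3 → ℤ × ℤ × ℤ → ℤ × ℤ × ℤ
  | 0, (a, b, c) => (c - 3, b, a + 3)
  | 1, (a, b, c) => (b, a, c)
  | 2, (a, b, c) => (a, c, b)

lemma act_act (i : Fin 3) (x : ℤ × ℤ × ℤ) : act i (act i x) = x := by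
  obtain ⟨a, b, c⟩ := x
  fin_cases i <;> simp [act]

/-- The same as permutations. -/
def perm (i : Fin 3) : Equiv.Perm (ℤ × ℤ × ℤ) := ⟨act i, act i, act_act i, act_act i⟩

lemma perm_apply (i : Fin 3) (x : ℤ × ℤ × ℤ) : perm i x = act i x := rfl

/-- The action of a word. -/
def ev (ω : List (Fin 3)) (x : ℤ × ℤ × ℤ) : ℤ × ℤ × ℤ := ω.foldr act x

/-- All words of a given length. -/
def words : ℕ → List (List (Fin 3))
  | 0 => [[]]
  | n + 1 => (words n).flatMap fun ω => [0 :: ω, 1 :: ω, 2 :: ω]

lemma mem_words (ω : List (Fin 3)) : ω ∈ words ω.length := by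
  induction ω with
  | nil => simp [words]
  | cons i ω ih =>
    simp only [List.length_cons, words, List.mem_flatMap]
    refine ⟨ω, ih, ?_⟩
    fin_cases i <;> simp

/-- The reduced word of the counterexample. -/
def w₀ : List (Fin 3) := [2, 0, 1, 2, 0, 1, 2]

/-- The base point. -/
def x₀ : ℤ × ℤ × ℤ := (1, 2, 3)

lemma check_short : ∀ k ∈ List.range 7, ∀ ω ∈ words k, ev ω x₀ ≠ ev w₀ x₀ := by decide +kernel

lemma check_seven : ∀ ω ∈ words 7, ev ω x₀ = ev w₀ x₀ → ω = w₀ := by decide +kernel

lemma check_infix : ∀ u ∈ w₀.tails, ∀ v ∈ u.inits, 2 ≤ v.length → ev (v ++ v) x₀ ≠ x₀ := by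
  decide +kernel

/-- The Coxeter matrix of type `Ã₂`: three generators, all products of two different ones of
order three. -/
def affine : CoxeterMatrix (Fin 3) where
  M := Matrix.of fun i j => if i = j then 1 else 3
  isSymm := by
    ext i j
    simp [Matrix.transpose_apply, eq_comm]
  diagonal := by simp
  off_diagonal := by
    intro i j h
    simp [h]

lemma affine_apply (i j : Fin 3) : affine i j = if i = j then 1 else 3 := rfl

lemma liftable : affine.IsLiftable perm := by
  intro i j
  rw [affine_apply]
  by_cases h : i = j
  · subst h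
    rw [if_pos rfl, pow_one]
    ext1 x
    exact act_act i x
  · rw [if_neg h]
    ext1 x
    obtain ⟨a, b, c⟩ := x
    fin_cases i <;> fin_cases j <;> first | exact absurd rfl h | simp [pow_succ, perm_apply, act]

/-- **The depth need not be realized by a reduced factorization.**  In the Coxeter group of type
`Ã₂` there is an element `w` such that in every factorization of `w` into reflections which realizes
the depth of `w` the sum of the lengths of the factors is larger than the length of `w`. -/
theorem result : ∃ M : CoxeterMatrix (Fin 3), (∀ i j, i ≠ j → M i j = 3) ∧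
    ∃ w : M.Group, ∀ l : List M.Group, (∀ t ∈ l, M.toCoxeterSystem.IsReflection t) → l.prod = w →
      depthSum M.toCoxeterSystem l = depth M.toCoxeterSystem w →
        M.toCoxeterSystem.length w < (l.map M.toCoxeterSystem.length).sum := by
  refine ⟨affine, fun i j h => by rw [affine_apply, if_neg h], ?_⟩
  set cs := affine.toCoxeterSystem with hcs
  refine ⟨cs.wordProd w₀, fun l hl hprod hd => ?_⟩
  -- the action
  let φ : affine.Group →* Equiv.Perm (ℤ × ℤ × ℤ) := cs.lift ⟨perm, liftable⟩
  have hφ : ∀ ω x, φ (cs.wordProd ω) x = ev ω x := by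
    intro ω x
    induction ω with
    | nil => simp [ev]
    | cons i ω ih =>
      rw [cs.wordProd_cons, map_mul, Equiv.Perm.mul_apply, ih]
      show (cs.lift ⟨perm, liftable⟩ (cs.simple i)) _ = _
      rw [cs.lift_apply_simple liftable i]
      rfl
  -- words of length at most seven
  have hword : ∀ ω : List (Fin 3), ω.length ≤ 7 → cs.wordProd ω = cs.wordProd w₀ → ω = w₀ := by
    intro ω hlen h
    have h1 : ev ω x₀ = ev w₀ x₀ := by rw [← hφ, ← hφ, h]
    rcases Nat.lt_or_ge ω.length 7 with hlt | hge
    · exact absurd h1 (check_short _ (List.mem_range.2 hlt) ω (mem_words ω))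
    · have h7 : ω.length = 7 := le_antisymm hlen hge
      exact check_seven ω (h7 ▸ mem_words ω) h1
  -- the depth is at most six
  have hdepth : depth cs (cs.wordProd w₀) ≤ 6 := by
    have hs : ∀ i, cs.simple i * cs.simple i = 1 := cs.simple_mul_simple_self
    have hi : ∀ i, (cs.simple i)⁻¹ = cs.simple i := cs.inv_simple
    have hb : ∀ i j, i ≠ j → cs.simple i * cs.simple j * cs.simple i
        = cs.simple j * cs.simple i * cs.simple j := by
      intro i j h
      have h3 := cs.simple_mul_simple_pow i j
      rw [affine_apply, if_neg h, pow_succ, pow_two] at h3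
      have h4 : cs.simple i * cs.simple j * cs.simple i
          = (cs.simple j * cs.simple i * cs.simple j)⁻¹ :=
        eq_inv_of_mul_eq_one_left (by simpa only [mul_assoc] using h3)
      rw [h4]
      simp only [mul_inv_rev, hi, mul_assoc]
    set a := cs.simple 0 with ha
    set b := cs.simple 1 with hb'
    set c := cs.simple 2 with hc'
    have hac : a * c * a = c * a * c := hb 0 2 (by decide)
    have hcb : c * b * c = b * c * b := hb 2 1 (by decide)
    have hba : b * a * b = a * b * a := hb 1 0 (by decide)
    have haa : a * a = 1 := hs 0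
    have hw : cs.wordProd w₀ = c * a * b * c * a * b * c := by
      simp only [w₀, CoxeterSystem.wordProd_cons, CoxeterSystem.wordProd_nil, mul_one]
      simp only [← ha, ← hb', ← hc', mul_assoc]
    have hlist : [a * c * a, b, c * a * b * a * c].prod = cs.wordProd w₀ := by
      rw [hw]
      simp only [List.prod_cons, List.prod_nil, mul_one]
      calc a * c * a * (b * (c * a * b * a * c))
          = (a * c * a) * b * c * a * b * a * c := by group
        _ = c * a * (c * b * c) * a * b * a * c := by rw [hac]; group
        _ = c * a * b * c * (b * a * b) * a * c := by rw [hcb]; group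
        _ = c * a * b * c * a * b * (a * a) * c := by rw [hba]; group
        _ = _ := by rw [haa]; group
    have hrefl : ∀ t ∈ [a * c * a, b, c * a * b * a * c], cs.IsReflection t := by
      intro t ht
      simp only [List.mem_cons, List.not_mem_nil, or_false] at ht
      rcases ht with rfl | rfl | rfl
      · exact ⟨a, 2, by rw [hi 0]⟩
      · exact ⟨1, 1, by simp [hb']⟩
      · exact ⟨c * a, 1, by rw [mul_inv_rev, hi 0, hi 2]; simp only [mul_assoc, ← hb']; rfl⟩
    have h1 : cs.length (a * c * a) ≤ 3 := by
      have := cs.length_wordProd_le [0, 2, 0]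
      simpa [CoxeterSystem.wordProd_cons, CoxeterSystem.wordProd_nil, mul_assoc] using this
    have h2 : cs.length b ≤ 1 := (cs.length_simple 1).le
    have h3 : cs.length (c * a * b * a * c) ≤ 5 := by
      have := cs.length_wordProd_le [2, 0, 1, 0, 2]
      simpa [CoxeterSystem.wordProd_cons, CoxeterSystem.wordProd_nil, mul_assoc] using this
    have h4 : depth cs (cs.wordProd w₀) ≤ depthSum cs [a * c * a, b, c * a * b * a * c] :=
      Nat.sInf_le ⟨_, hrefl, hlist, rfl⟩
    refine h4.trans ?_
    simp only [depthSum, List.map_cons, List.map_nil, List.sum_cons, List.sum_nil]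
    omega
  by_contra hcon
  push Not at hcon
  -- reduced words of the factors
  choose ρ hρred hρ using cs.exists_isReduced
  have hρlen : ∀ t, (ρ t).length = cs.length t := by
    intro t
    have h1 : cs.length (cs.wordProd (ρ t)) = (ρ t).length := hρred t
    rw [← h1, ← hρ t]
  have hflat : ∀ l' : List affine.Group, cs.wordProd (l'.map ρ).flatten = l'.prod ∧
      (l'.map ρ).flatten.length = (l'.map cs.length).sum := by
    intro l'
    induction l' with
    | nil => simp
    | cons t l' ih =>
      simp only [List.map_cons, List.flatten_cons, CoxeterSystem.wordProd_append, List.prod_cons,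
        List.length_append, List.sum_cons]
      exact ⟨by rw [ih.1, ← hρ t], by rw [ih.2, hρlen t]⟩
  have hlen : cs.length (cs.wordProd w₀) ≤ 7 := cs.length_wordProd_le w₀
  have hl7 : (l.map ρ).flatten = w₀ :=
    hword _ (by rw [(hflat l).2]; exact hcon.trans hlen) (by rw [(hflat l).1, hprod])
  have hone : ∀ t ∈ l, cs.length t = 1 := by
    intro t ht
    have hodd := (hl t ht).odd_length
    obtain ⟨l₁, l₂, rfl⟩ := List.append_of_mem ht
    rw [List.map_append, List.map_cons, List.flatten_append, List.flatten_cons] at hl7
    have hsuf : ρ t ++ (l₂.map ρ).flatten ∈ w₀.tails := by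
      rw [List.mem_tails]
      exact ⟨_, hl7⟩
    have hpre : ρ t ∈ (ρ t ++ (l₂.map ρ).flatten).inits := by
      rw [List.mem_inits]
      exact ⟨_, rfl⟩
    have hlt : (ρ t).length < 2 := by
      by_contra hge
      refine check_infix _ hsuf _ hpre (not_lt.1 hge) ?_
      rw [← hφ, CoxeterSystem.wordProd_append, ← hρ t, (hl t ht).mul_self, map_one]
      rfl
    rw [hρlen t] at hlt
    obtain ⟨k, hk⟩ := hodd
    omega
  have hsum : (l.map cs.length).sum = l.length := by
    rw [List.map_congr_left (g := fun _ => 1) hone]
    simp
  have hdsum : depthSum cs l = l.length := by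
    unfold depthSum
    rw [List.map_congr_left (g := fun _ => 1) (fun t ht => by rw [hone t ht])]
    simp
  have h7 : (l.map cs.length).sum = 7 := by
    rw [← (hflat l).2, hl7]; rfl
  omega

end Pool.Agent.Results.MP_c1e3ac_co.AffineDepth
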